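import Pool.Agent.H.MP_3a69bf_ag.B

set_option autoImplicit false

namespace Pool.Agent.Results.MP_3a69bf_ag.NotToric

open MvPolynomial Relation

/-- `v 0, …, v m` is a path from `i` to `j` (edge directions ignored, vertices distinct). -/
def IsPath {V : Type} (E : V → V → Prop) (i j : V) (m : ℕ) (v : ℕ → V) : Prop :=
  v 0 = i ∧ v m = j ∧ Set.InjOn v (Set.Iic m) ∧
    ∀ t < m, E (v t) (v (t + 1)) ∨ E (v (t + 1)) (v t)

/-- Both path edges at the vertex `v (t + 1)` point into it. -/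
def Collider {V : Type} (E : V → V → Prop) (v : ℕ → V) (t : ℕ) : Prop :=
  E (v t) (v (t + 1)) ∧ E (v (t + 2)) (v (t + 1))

/-- `C` d-separates `i` and `j`. -/
def DSep {V : Type} (E : V → V → Prop) (C : Finset V) (i j : V) : Prop :=
  ∀ m v, IsPath E i j m v → ∃ t, t + 1 < m ∧ ((¬ Collider E v t ∧ v (t + 1) ∈ C) ∨
    (Collider E v t ∧ ∀ d, ReflTransGen E (v (t + 1)) d → d ∉ C))

/-- The matrix `(1 - L)⁻ᵀ Ω (1 - L)⁻¹` with `Ω` the diagonal matrix of `ω`. -/
noncomputable def cov {n : ℕ} (L : Matrix (Fin n) (Fin n) ℝ) (ω : Fin n → ℝ) :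
    Matrix (Fin n) (Fin n) ℝ :=
  ((1 - L)⁻¹).transpose * Matrix.diagonal ω * (1 - L)⁻¹

/-- The Gaussian model, in the coordinates `σ_{ab}` with `a ≤ b`. -/
def model {n : ℕ} (E : Fin n → Fin n → Prop) : Set ({p : Fin n × Fin n // p.1 ≤ p.2} → ℝ) :=
  {s | ∃ (L : Matrix (Fin n) (Fin n) ℝ) (ω : Fin n → ℝ), (∀ a b, ¬ E a b → L a b = 0) ∧
    (∀ a, 0 < ω a) ∧ s = fun p => cov L ω p.1.1 p.1.2}

/-- A polynomial with at most two terms. -/
def IsBinomial {τ : Type} (f : MvPolynomial τ ℝ) : Prop :=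
  ∃ a b c d, f = monomial a c + monomial b d

theorem result (n : ℕ) (E : Fin n → Fin n → Prop) (hE : ∀ v, ¬ TransGen E v v) (i j : Fin n)
    (hij : i ≠ j) (h1 : ¬ E i j) (h2 : ¬ E j i)
    (h : ∀ C : Finset (Fin n), i ∉ C → j ∉ C → C.card ≤ 1 → ¬ DSep E C i j) :
    ¬ ∃ B, (∀ f ∈ B, IsBinomial f) ∧ vanishingIdeal ℝ (model E) = Ideal.span B := by
  rintro ⟨B, hB, hI⟩
  have as : ∀ a b, E a b → ¬ E b a := fun a b h h' => hE a ((TransGen.single h).tail h')
  have key : ∀ C : Finset (Fin n), i ∉ C → j ∉ C → C.card ≤ 1 →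
      (Dag.Trek (fun a b => E a b ∧ a ∉ (C : Set (Fin n))) i j ∨
        ∃ c ∈ (C : Set (Fin n)), Dag.Trek (fun a b => E a b ∧ a ∉ (C : Set (Fin n))) i c) ∧
      (Dag.Trek (fun a b => E a b ∧ a ∉ (C : Set (Fin n))) j i ∨
        ∃ c ∈ (C : Set (Fin n)), Dag.Trek (fun a b => E a b ∧ a ∉ (C : Set (Fin n))) j c) := by
    intro C hi hj hC
    have := h C hi hj hC
    simp only [DSep, not_forall, not_exists, not_and, not_or, not_not] at this
    obtain ⟨m, v, ⟨rfl, rfl, -, h3⟩, h4⟩ := this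
    have h5 : ∀ t, t + 1 < m → v (t + 1) ∈ C → Collider E v t := fun t ht h =>
      by_contra fun h' => (h4 t ht).1 h' h
    have h6 : ∀ t, t + 1 < m → Collider E v t → ∃ d ∈ C, ReflTransGen E (v (t + 1)) d :=
      fun t ht h => by
        obtain ⟨d, h7, h8⟩ := (h4 t ht).2 h
        exact ⟨d, h8, h7⟩
    refine ⟨Dag.active as hi hj h3 h5 fun t ht h h' => h6 t ht ⟨h, h'⟩, ?_⟩
    have := Dag.active (C := C) (m := m) (v := fun t => v (m - t)) as hj
      (by rwa [Nat.sub_self]) (fun t ht => by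
        have := h3 (m - (t + 1)) (by omega)
        rw [show m - (t + 1) + 1 = m - t by omega] at this
        exact this.symm) (fun t ht => by
        have := h5 (m - (t + 2)) (by omega)
        rw [Collider, show m - (t + 2) + 1 = m - (t + 1) by omega,
          show m - (t + 2) + 2 = m - t by omega] at this
        exact fun h => (this h).symm) (fun t ht => by
        have := h6 (m - (t + 2)) (by omega)
        rw [Collider, show m - (t + 2) + 1 = m - (t + 1) by omega,
          show m - (t + 2) + 2 = m - t by omega] at this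
        exact fun h h' => this ⟨h', h⟩)
    simpa only [Nat.sub_self, Nat.sub_zero] using this
  have k0 : Dag.Trek E i j := by simpa using (key ∅ (by simp) (by simp) (by simp)).1
  have k1 : ∀ c, i ≠ c → j ≠ c → Dag.Trek (fun a b => E a b ∧ a ≠ c) i j ∨
      Dag.Trek (fun a b => E a b ∧ a ≠ c) i c ∧ Dag.Trek (fun a b => E a b ∧ a ≠ c) j c := by
    intro c hi hj
    have := key {c} (by simpa) (by simpa) (by simp)
    simp only [Finset.coe_singleton, Set.mem_singleton_iff, exists_eq_left] at this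
    rcases this with ⟨h3 | h3, h4 | h4⟩
    exacts [.inl h3, .inl h3, .inl h4.symm, .inr ⟨h3, h4⟩]
  have k2 : ∀ f, f ∈ Ideal.span B ↔ ∀ (L : Matrix (Fin n) (Fin n) ℝ) (ω : Fin n → ℝ),
      (∀ a b, ¬ E a b → L a b = 0) → (∀ a, 0 < ω a) →
        eval (fun p => Dag.cov L ω p.1.1 p.1.2) f = 0 := fun f => by
    rw [← hI, mem_vanishingIdeal_iff]
    refine ⟨fun h L ω a b => h _ ⟨L, ω, a, b, rfl⟩, fun h _ => ?_⟩
    rintro ⟨L, ω, a, b, rfl⟩
    exact h L ω a b
  by_cases e : ReflTransGen E j i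
  · exact Dag.main hE h2 (fun e' => hE i (TransGen.trans_left ((reflTransGen_iff_eq_or_transGen.1
      e').resolve_left hij.symm) e)) k0.symm (fun c hj hi => (k1 c hi hj).imp .symm .symm) B hB k2
  · exact Dag.main hE h1 e k0 k1 B hB k2

end Pool.Agent.Results.MP_3a69bf_ag.NotToric
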